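import Pool.Agent.Helper80K9.DP.Core
import Pool.Agent.Helper80K9.DC.Digits

/-!
# Digits of an algebraic number against the digits of a rational number
-/

set_option autoImplicit false

open Finset Filter

namespace Pool.Agent.Helper80K9.DP

open Pool.Agent.Helper80K9.DC (aa dig aa_bound dig_eq)

theorem partial_sum {b : ℕ} (hb : 2 ≤ b) (ξ : ℝ) (n : ℕ) :
    ∑ k ∈ range (n + 1), (aa b ξ k : ℝ) * (1 / b : ℝ) ^ k =
      ⌊ξ * (b : ℝ) ^ n⌋ * (1 / b : ℝ) ^ n := by
  have hb0 : (b : ℝ) ≠ 0 := by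
    have : b ≠ 0 := by omega
    exact_mod_cast this
  induction n with
  | zero => simp [aa]
  | succ n ih =>
    rw [sum_range_succ, ih]
    simp only [aa]
    push_cast
    rw [pow_succ (1 / b : ℝ)]
    field_simp
    ring

theorem summable_aa {b : ℕ} (hb : 2 ≤ b) (ξ : ℝ) :
    Summable fun k => (aa b ξ k : ℝ) * (1 / b : ℝ) ^ k := by
  have hbR : (2 : ℝ) ≤ b := by exact_mod_cast hb
  have hβ0 : (0 : ℝ) ≤ 1 / b := by positivity
  have hβ1 : (1 / b : ℝ) < 1 := by
    rw [div_lt_one (by linarith)]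
    linarith
  refine Summable.of_norm_bounded
    ((summable_geometric_of_lt_one hβ0 hβ1).mul_left (b + |ξ| + 1)) fun k => ?_
  rw [Real.norm_eq_abs, abs_mul, abs_of_nonneg (pow_nonneg hβ0 k)]
  exact mul_le_mul_of_nonneg_right (aa_bound hb ξ k) (pow_nonneg hβ0 k)

theorem tsum_aa {b : ℕ} (hb : 2 ≤ b) (ξ : ℝ) :
    ∑' k, (aa b ξ k : ℝ) * (1 / b : ℝ) ^ k = ξ := by
  have hbR : (2 : ℝ) ≤ b := by exact_mod_cast hb
  have hβ0 : (0 : ℝ) ≤ 1 / b := by positivity
  have hβ1 : (1 / b : ℝ) < 1 := by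
    rw [div_lt_one (by linarith)]
    linarith
  have h1 := ((summable_aa hb ξ).hasSum.tendsto_sum_nat).comp (tendsto_add_atTop_nat 1)
  have h2 : Tendsto (fun n : ℕ => (⌊ξ * (b : ℝ) ^ n⌋ : ℝ) * (1 / b : ℝ) ^ n) atTop (nhds ξ) := by
    have h3 : Tendsto (fun n : ℕ => (1 / b : ℝ) ^ n) atTop (nhds 0) :=
      tendsto_pow_atTop_nhds_zero_of_lt_one hβ0 hβ1
    rw [tendsto_iff_norm_sub_tendsto_zero]
    refine squeeze_zero (fun n => norm_nonneg _) (fun n => ?_) h3
    have hpos : (0 : ℝ) < (b : ℝ) ^ n := by positivity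
    have h4 : (⌊ξ * (b : ℝ) ^ n⌋ : ℝ) * (1 / b : ℝ) ^ n - ξ =
        -(Int.fract (ξ * (b : ℝ) ^ n) * (1 / b : ℝ) ^ n) := by
      rw [Int.fract]
      have h5 : (b : ℝ) ^ n * (1 / b : ℝ) ^ n = 1 := by
        rw [← mul_pow]
        have : (b : ℝ) ≠ 0 := by linarith
        rw [mul_one_div_cancel this, one_pow]
      linear_combination ξ * h5
    rw [h4, norm_neg, Real.norm_eq_abs, abs_mul, abs_of_nonneg (Int.fract_nonneg _),
      abs_of_nonneg (pow_nonneg hβ0 n)]
    have h6 := (Int.fract_lt_one (ξ * (b : ℝ) ^ n)).le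
    have h7 := pow_nonneg hβ0 n
    nlinarith
  refine tendsto_nhds_unique h1 (h2.congr fun n => ?_)
  rw [Function.comp_apply, partial_sum hb]

theorem dvd_pow_of_primes {b : ℕ} : ∀ v : ℕ, 0 < v → (∀ p : ℕ, p.Prime → p ∣ v → p ∣ b) →
    ∃ j, v ∣ b ^ j := by
  intro v
  induction v using Nat.strong_induction_on with
  | _ v ih =>
    intro hv h
    by_cases h1 : v = 1
    · exact ⟨0, by rw [h1]; exact one_dvd _⟩
    · have hp := Nat.minFac_prime h1
      obtain ⟨w, hw⟩ := Nat.minFac_dvd v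
      have hw0 : 0 < w := by
        rcases Nat.eq_zero_or_pos w with h2 | h2
        · rw [h2, mul_zero] at hw
          omega
        · exact h2
      have hwv : w < v := by
        have h2 := hp.two_le
        nlinarith
      obtain ⟨j, hj⟩ := ih w hwv hw0 fun p hp' hpw => h p hp' (by
        rw [hw]
        exact Dvd.dvd.mul_left hpw _)
      refine ⟨j + 1, ?_⟩
      rw [hw, pow_succ, mul_comm]
      exact mul_dvd_mul hj (h _ hp (Nat.minFac_dvd v))

theorem exists_prime {b : ℕ} {r : ℚ} (hr : ∀ (j : ℕ) (n : ℤ), r * (b : ℚ) ^ j ≠ n) :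
    ∃ p : ℕ, p.Prime ∧ p ∣ r.den ∧ ¬ p ∣ b := by
  by_contra hcon
  push Not at hcon
  obtain ⟨j, w, hw⟩ := dvd_pow_of_primes r.den r.den_pos hcon
  refine hr j (r.num * w) ?_
  have h1 : (r.den : ℚ) ≠ 0 := by exact_mod_cast r.den_pos.ne'
  have h2 : (b : ℚ) ^ j = r.den * w := by exact_mod_cast hw
  have h3 : r * r.den = r.num := Rat.mul_den_eq_num r
  rw [h2, ← mul_assoc, h3]
  push_cast
  rfl

/-- the polynomial of the translate -/
noncomputable def trans (P : Polynomial ℤ) (u : ℤ) (v : ℕ) : Polynomial ℤ :=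
  ∑ j ∈ range (P.natDegree + 1), Polynomial.C (P.coeff j * (v : ℤ) ^ (P.natDegree - j)) *
    (Polynomial.C (v : ℤ) * Polynomial.X + Polynomial.C u) ^ j

theorem natDegree_trans (P : Polynomial ℤ) (u : ℤ) (v : ℕ) :
    (trans P u v).natDegree ≤ P.natDegree := by
  unfold trans
  refine Polynomial.natDegree_sum_le_of_forall_le _ _ fun j hj => ?_
  have hj' := mem_range.1 hj
  refine (Polynomial.natDegree_C_mul_le _ _).trans ((Polynomial.natDegree_pow_le).trans ?_)
  have h1 : (Polynomial.C (v : ℤ) * Polynomial.X + Polynomial.C u).natDegree ≤ 1 :=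
    Polynomial.natDegree_linear_le
  nlinarith

theorem aeval_trans (P : Polynomial ℤ) (u : ℤ) (v : ℕ) (y : ℝ) {ξ : ℝ}
    (h : (v : ℝ) * y + u = v * ξ) :
    Polynomial.aeval y (trans P u v) = (v : ℝ) ^ P.natDegree * Polynomial.aeval ξ P := by
  unfold trans
  rw [map_sum, Polynomial.aeval_eq_sum_range, mul_sum]
  refine sum_congr rfl fun j hj => ?_
  have hj' := mem_range.1 hj
  have h1 : Polynomial.aeval y (Polynomial.C (P.coeff j * (v : ℤ) ^ (P.natDegree - j)) *
      (Polynomial.C (v : ℤ) * Polynomial.X + Polynomial.C u) ^ j) =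
      ((P.coeff j * (v : ℤ) ^ (P.natDegree - j) : ℤ) : ℝ) * (((v : ℤ) : ℝ) * y + (u : ℝ)) ^ j := by
    rw [map_mul (Polynomial.aeval y), map_pow (Polynomial.aeval y), map_add (Polynomial.aeval y),
      map_mul (Polynomial.aeval y), Polynomial.aeval_X, Polynomial.aeval_C, Polynomial.aeval_C,
      Polynomial.aeval_C]
    rfl
  rw [h1, zsmul_eq_mul]
  push_cast
  rw [h, mul_pow]
  have h2 : (v : ℝ) ^ P.natDegree = (v : ℝ) ^ (P.natDegree - j) * (v : ℝ) ^ j := by
    rw [← pow_add, Nat.sub_add_cancel (by omega)]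
  rw [h2]
  ring

theorem coeff_trans (P : Polynomial ℤ) (u : ℤ) (v : ℕ) {p : ℕ} (hp : p.Prime) (hpv : p ∣ v)
    (i : ℕ) : (p : ℤ) ∣ (trans P u v).coeff i - if i = 0 then P.leadingCoeff * u ^ P.natDegree
      else 0 := by
  have : Fact p.Prime := ⟨hp⟩
  have hv0 : Int.castRingHom (ZMod p) (v : ℤ) = 0 := by
    rw [eq_intCast, Int.cast_natCast]
    exact (ZMod.natCast_eq_zero_iff v p).2 hpv
  have h1 : (trans P u v).map (Int.castRingHom (ZMod p)) =
      Polynomial.C ((P.leadingCoeff * u ^ P.natDegree : ℤ) : ZMod p) := by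
    unfold trans
    rw [Polynomial.map_sum, sum_range_succ, sum_eq_zero]
    · simp only [Polynomial.map_mul, Polynomial.map_C, Polynomial.map_pow, Polynomial.map_add,
        Polynomial.map_X, Nat.sub_self, pow_zero, mul_one, hv0, Polynomial.C_0, zero_mul,
        zero_add]
      rw [← Polynomial.C_pow, ← Polynomial.C_mul]
      simp only [eq_intCast, Int.cast_mul, Int.cast_pow]
      rfl
    · intro j hj
      have hj' := mem_range.1 hj
      have h2 : P.natDegree - j ≠ 0 := by omega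
      rw [Polynomial.map_mul, Polynomial.map_C, map_mul (Int.castRingHom (ZMod p)),
        map_pow (Int.castRingHom (ZMod p)), hv0, zero_pow h2, mul_zero, Polynomial.C_0, zero_mul]
  have h2 := congrArg (fun f => f.coeff i) h1
  simp only [Polynomial.coeff_map, Polynomial.coeff_C, eq_intCast] at h2
  rw [← ZMod.intCast_zmod_eq_zero_iff_dvd]
  push_cast
  rw [h2]
  split_ifs <;> simp

theorem digits_vs_rational {b : ℕ} (hb : 2 ≤ b) {P : Polynomial ℤ}
    (hP : ∀ q : ℕ, q.Prime → (q : ℤ) ∣ P.leadingCoeff → q ∣ b) {ξ : ℝ}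
    (hξ : Polynomial.aeval ξ P = 0) {r : ℚ} (hr : ∀ (j : ℕ) (n : ℤ), r * (b : ℚ) ^ j ≠ n) :
    ∃ c : ℝ, 0 < c ∧ ∃ N0 : ℕ, ∀ N : ℕ, N0 ≤ N → c * N ≤
      (((Icc 1 N).filter fun k => dig b ξ k ≠ dig b r k).card : ℝ) ^ P.natDegree := by
  obtain ⟨p, hp, hpv, hpb⟩ := exists_prime hr
  set y : ℝ := ξ - r with hy
  set e : ℕ → ℤ := fun k => aa b ξ k - aa b r k with he
  have hsum : ∑' k, (e k : ℝ) * (1 / b : ℝ) ^ k = y := by
    rw [hy, ← tsum_aa hb ξ]
    conv_rhs => rw [← tsum_aa hb (r : ℝ)]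
    rw [← (summable_aa hb ξ).tsum_sub (summable_aa hb r)]
    refine tsum_congr fun k => ?_
    simp only [he]
    push_cast
    ring
  have hbd : ∀ k, |(e k : ℝ)| ≤ (b + |ξ| + 1) + (b + |(r : ℝ)| + 1) := by
    intro k
    simp only [he]
    push_cast
    exact (abs_sub _ _).trans (add_le_add (aa_bound hb ξ k) (aa_bound hb r k))
  have hpu : ¬ (p : ℤ) ∣ r.num := by
    intro h
    have h1 := r.reduced
    have h2 : p ∣ r.num.natAbs := Int.natCast_dvd.1 h
    have h3 := Nat.dvd_gcd h2 hpv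
    rw [Nat.coprime_iff_gcd_eq_one.1 h1] at h3
    exact hp.one_lt.ne' (Nat.dvd_one.1 h3)
  have hpZ : Prime (p : ℤ) := Nat.prime_iff_prime_int.1 hp
  have hpP : ¬ (p : ℤ) ∣ P.leadingCoeff := fun h => hpb (hP p hp h)
  have hq := coeff_trans P r.num r.den hp hpv
  have hq0 : ¬ (p : ℤ) ∣ (trans P r.num r.den).coeff 0 := by
    intro h
    have h1 := hq 0
    rw [if_pos rfl] at h1
    have h2 := (dvd_sub_right h).1 h1
    rcases hpZ.dvd_or_dvd h2 with h3 | h3
    · exact hpP h3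
    · exact hpu (hpZ.dvd_of_dvd_pow h3)
  have hq1 : ∀ j, 1 ≤ j → (p : ℤ) ∣ (trans P r.num r.den).coeff j := by
    intro j hj
    have h1 := hq j
    rwa [if_neg (by omega), sub_zero] at h1
  have hden : (r.den : ℝ) * y + r.num = r.den * ξ := by
    have h1 : (r : ℝ) * r.den = r.num := by exact_mod_cast Rat.mul_den_eq_num r
    rw [hy]
    linarith
  have hev : Polynomial.aeval (∑' k, (e k : ℝ) * (1 / b : ℝ) ^ k) (trans P r.num r.den) = 0 := by
    rw [hsum, aeval_trans P r.num r.den y hden, hξ, mul_zero]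
  obtain ⟨G, hG0, hG⟩ := core hb hp hpb e hbd (natDegree_trans P r.num r.den) hq0 hq1 hev
  set D := P.natDegree with hD
  obtain ⟨N1, hN1⟩ := exists_nat_gt (4 * (G * 2 ^ D))
  refine ⟨1 / (4 * (G * 3 ^ D)), by positivity, N1 + 2, fun N hN => ?_⟩
  set cnt := ((Icc 1 N).filter fun k => dig b ξ k ≠ dig b r k).card with hcnt
  have h1 := hG (N / 2)
  have h2 : ((range (2 * (N / 2) + 1)).filter fun k => e k ≠ 0).card ≤ 1 + cnt := by
    have h3 : ((range (2 * (N / 2) + 1)).filter fun k => e k ≠ 0) ⊆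
        insert 0 ((Icc 1 N).filter fun k => dig b ξ k ≠ dig b r k) := by
      intro k hk
      rw [mem_filter, mem_range] at hk
      rw [mem_insert, mem_filter, mem_Icc]
      rcases Nat.eq_zero_or_pos k with h4 | h4
      · exact Or.inl h4
      · right
        refine ⟨⟨h4, by omega⟩, ?_⟩
        obtain ⟨k, rfl⟩ : ∃ k', k = k' + 1 := ⟨k - 1, by omega⟩
        rw [dig_eq hb, dig_eq hb]
        intro h5
        apply hk.2
        simp only [he]
        rw [h5]
        ring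
    refine (card_le_card h3).trans ((card_insert_le _ _).trans ?_)
    omega
  have h3 : (1 + (((range (2 * (N / 2) + 1)).filter fun k => e k ≠ 0).card : ℝ)) ≤ 2 + cnt := by
    have : ((((range (2 * (N / 2) + 1)).filter fun k => e k ≠ 0).card : ℕ) : ℝ) ≤
        ((1 + cnt : ℕ) : ℝ) := by exact_mod_cast h2
    push_cast at this
    linarith
  have h4 : ((N / 2 : ℕ) : ℝ) ≤ G * (2 + (cnt : ℝ)) ^ D :=
    h1.trans (mul_le_mul_of_nonneg_left (pow_le_pow_left₀ (by positivity) h3 D) hG0.le)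
  have h5 : (N : ℝ) ≤ 4 * ((N / 2 : ℕ) : ℝ) := by
    have : N ≤ 4 * (N / 2) := by omega
    exact_mod_cast this
  have h6 : (N1 : ℝ) ≤ N := by exact_mod_cast (by omega : N1 ≤ N)
  have h7 : 1 ≤ cnt := by
    by_contra h8
    have h9 : cnt = 0 := by omega
    rw [h9] at h4
    simp only [Nat.cast_zero, add_zero] at h4
    linarith
  have h8 : (1 : ℝ) ≤ cnt := by exact_mod_cast h7
  have h9 : (2 + (cnt : ℝ)) ^ D ≤ 3 ^ D * (cnt : ℝ) ^ D := by
    rw [← mul_pow]
    exact pow_le_pow_left₀ (by positivity) (by linarith) D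
  have h10 : (N : ℝ) ≤ 4 * (G * (3 ^ D * (cnt : ℝ) ^ D)) := by
    have := mul_le_mul_of_nonneg_left h9 hG0.le
    linarith
  rw [one_div, inv_mul_le_iff₀ (by positivity)]
  calc (N : ℝ) ≤ 4 * (G * (3 ^ D * (cnt : ℝ) ^ D)) := h10
    _ = 4 * (G * 3 ^ D) * (cnt : ℝ) ^ D := by ring

end Pool.Agent.Helper80K9.DP
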