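import Pool.Agent.Helper80K9.DP.Tail

/-!
# Algebraic numbers with a `p`-adically large translate: many nonzero terms
-/

set_option autoImplicit false

open Finset

namespace Pool.Agent.Helper80K9.DP

open PowerSeries (coeff)

/-- partial norm of an integral power series -/
noncomputable def nm (K : ℕ) (f : PowerSeries ℤ) : ℝ := ∑ k ∈ range K, |((coeff k f : ℤ) : ℝ)|

theorem nm_nonneg (K : ℕ) (f : PowerSeries ℤ) : 0 ≤ nm K f :=
  sum_nonneg fun _ _ => abs_nonneg _

theorem nm_add (K : ℕ) (f g : PowerSeries ℤ) : nm K (f + g) ≤ nm K f + nm K g := by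
  unfold nm
  rw [← sum_add_distrib]
  refine sum_le_sum fun k _ => ?_
  rw [map_add]
  push_cast
  exact abs_add_le _ _

theorem nm_mul (K : ℕ) (f g : PowerSeries ℤ) : nm K (f * g) ≤ nm K f * nm K g := by
  classical
  unfold nm
  have h1 : ∀ k ∈ range K, |((coeff k (f * g) : ℤ) : ℝ)| ≤
      ∑ p ∈ antidiagonal k, |((coeff p.1 f : ℤ) : ℝ)| * |((coeff p.2 g : ℤ) : ℝ)| := by
    intro k _
    rw [PowerSeries.coeff_mul]
    push_cast
    refine (abs_sum_le_sum_abs _ _).trans (le_of_eq ?_)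
    refine sum_congr rfl fun p _ => abs_mul _ _
  refine (sum_le_sum h1).trans ?_
  rw [sum_mul_sum, ← sum_product']
  have h2 : ∑ k ∈ range K, ∑ p ∈ antidiagonal k, |((coeff p.1 f : ℤ) : ℝ)| * |((coeff p.2 g : ℤ) : ℝ)| =
      ∑ p ∈ (range K ×ˢ range K).filter (fun p => p.1 + p.2 < K),
        |((coeff p.1 f : ℤ) : ℝ)| * |((coeff p.2 g : ℤ) : ℝ)| := by
    rw [← sum_fiberwise_of_maps_to (s := (range K ×ˢ range K).filter fun p => p.1 + p.2 < K)
      (t := range K) (g := fun p => p.1 + p.2)]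
    · refine sum_congr rfl fun k hk => sum_congr ?_ fun _ _ => rfl
      ext ⟨i, j⟩
      rw [mem_range] at hk
      simp only [HasAntidiagonal.mem_antidiagonal, mem_filter, mem_product, mem_range]
      omega
    · intro p hp
      rw [mem_filter] at hp
      exact mem_range.2 hp.2
  rw [h2]
  exact sum_le_sum_of_subset_of_nonneg (filter_subset _ _) fun _ _ _ => by positivity

theorem nm_one (K : ℕ) : nm K 1 ≤ 1 := by
  unfold nm
  rcases Nat.eq_zero_or_pos K with h | h
  · subst h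
    simp
  · rw [sum_eq_single_of_mem 0 (mem_range.2 h)]
    · simp
    · intro k _ hk
      rw [PowerSeries.coeff_one, if_neg hk]
      simp

theorem nm_pow (K : ℕ) (f : PowerSeries ℤ) (j : ℕ) : nm K (f ^ j) ≤ nm K f ^ j := by
  induction j with
  | zero => simpa using nm_one K
  | succ j ih =>
    rw [pow_succ, pow_succ]
    exact (nm_mul K _ _).trans (mul_le_mul_of_nonneg_right ih (nm_nonneg K f))

theorem nm_smul (K : ℕ) (c : ℤ) (f : PowerSeries ℤ) : nm K (c • f) = |(c : ℝ)| * nm K f := by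
  unfold nm
  rw [mul_sum]
  refine sum_congr rfl fun k _ => ?_
  rw [map_zsmul, smul_eq_mul]
  push_cast
  rw [abs_mul]

theorem nm_sum {ι : Type*} (s : Finset ι) (K : ℕ) (f : ι → PowerSeries ℤ) :
    nm K (∑ i ∈ s, f i) ≤ ∑ i ∈ s, nm K (f i) := by
  classical
  induction s using Finset.induction_on with
  | empty => simp [nm]
  | insert a s ha ih =>
    rw [sum_insert ha, sum_insert ha]
    exact (nm_add _ _ _).trans (add_le_add le_rfl ih)

/-- absolute convergence -/
def Sm (x : ℝ) (f : PowerSeries ℤ) : Prop := Summable fun k => |((coeff k f : ℤ) : ℝ)| * x ^ k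

/-- evaluation -/
noncomputable def ev (x : ℝ) (f : PowerSeries ℤ) : ℝ := ∑' k, ((coeff k f : ℤ) : ℝ) * x ^ k

theorem Sm.norm {x : ℝ} (hx : 0 < x) {f : PowerSeries ℤ} (h : Sm x f) :
    Summable fun k => ‖((coeff k f : ℤ) : ℝ) * x ^ k‖ := by
  refine Summable.congr h fun k => ?_
  rw [Real.norm_eq_abs, abs_mul, abs_of_pos (pow_pos hx k)]

theorem anti_mul (x : ℝ) (f g : PowerSeries ℤ) (n : ℕ) :
    ∑ p ∈ antidiagonal n, (((coeff p.1 f : ℤ) : ℝ) * x ^ p.1) * (((coeff p.2 g : ℤ) : ℝ) * x ^ p.2) =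
      ((coeff n (f * g) : ℤ) : ℝ) * x ^ n := by
  rw [PowerSeries.coeff_mul]
  push_cast
  rw [sum_mul]
  refine sum_congr rfl fun p hp => ?_
  rw [HasAntidiagonal.mem_antidiagonal] at hp
  rw [← hp, pow_add]
  ring

theorem Sm.mul {x : ℝ} (hx : 0 < x) {f g : PowerSeries ℤ} (hf : Sm x f) (hg : Sm x g) :
    Sm x (f * g) := by
  have h := summable_norm_sum_mul_antidiagonal_of_summable_norm (hf.norm hx) (hg.norm hx)
  refine Summable.congr h fun n => ?_
  rw [anti_mul, Real.norm_eq_abs, abs_mul, abs_of_pos (pow_pos hx n)]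

theorem ev_mul {x : ℝ} (hx : 0 < x) {f g : PowerSeries ℤ} (hf : Sm x f) (hg : Sm x g) :
    ev x (f * g) = ev x f * ev x g := by
  have h := tsum_mul_tsum_eq_tsum_sum_antidiagonal_of_summable_norm (hf.norm hx) (hg.norm hx)
  unfold ev
  rw [h]
  exact tsum_congr fun n => (anti_mul x f g n).symm

theorem Sm.one (x : ℝ) : Sm x 1 := by
  refine summable_of_ne_finset_zero (s := {0}) fun k hk => ?_
  rw [mem_singleton] at hk
  rw [PowerSeries.coeff_one, if_neg hk]
  simp

theorem ev_one (x : ℝ) : ev x 1 = 1 := by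
  unfold ev
  rw [tsum_eq_single 0]
  · simp
  · intro k hk
    rw [PowerSeries.coeff_one, if_neg hk]
    simp

theorem Sm.pow {x : ℝ} (hx : 0 < x) {f : PowerSeries ℤ} (hf : Sm x f) (j : ℕ) : Sm x (f ^ j) := by
  induction j with
  | zero => simpa using Sm.one x
  | succ j ih =>
    rw [pow_succ]
    exact ih.mul hx hf

theorem ev_pow {x : ℝ} (hx : 0 < x) {f : PowerSeries ℤ} (hf : Sm x f) (j : ℕ) :
    ev x (f ^ j) = ev x f ^ j := by
  induction j with
  | zero => simpa using ev_one x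
  | succ j ih =>
    rw [pow_succ, pow_succ, ev_mul hx (hf.pow hx j) hf, ih]

theorem Sm.add {x : ℝ} (hx : 0 < x) {f g : PowerSeries ℤ} (hf : Sm x f) (hg : Sm x g) :
    Sm x (f + g) := by
  refine Summable.of_nonneg_of_le (fun k => by positivity) (fun k => ?_) (Summable.add hf hg)
  rw [map_add, ← add_mul]
  push_cast
  exact mul_le_mul_of_nonneg_right (abs_add_le _ _) (by positivity)

theorem ev_add {x : ℝ} (hx : 0 < x) {f g : PowerSeries ℤ} (hf : Sm x f) (hg : Sm x g) :
    ev x (f + g) = ev x f + ev x g := by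
  unfold ev
  rw [← (hf.norm hx).of_norm.tsum_add (hg.norm hx).of_norm]
  refine tsum_congr fun k => ?_
  rw [map_add]
  push_cast
  ring

theorem Sm.smul {x : ℝ} {f : PowerSeries ℤ} (c : ℤ) (hf : Sm x f) : Sm x (c • f) := by
  refine Summable.congr (Summable.mul_left |(c : ℝ)| hf) fun k => ?_
  rw [map_zsmul, smul_eq_mul]
  push_cast
  rw [abs_mul]
  ring

theorem ev_smul (x : ℝ) (f : PowerSeries ℤ) (c : ℤ) : ev x (c • f) = c * ev x f := by
  unfold ev
  rw [← tsum_mul_left]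
  refine tsum_congr fun k => ?_
  rw [map_zsmul, smul_eq_mul]
  push_cast
  ring

theorem aeval_spec {x : ℝ} (hx : 0 < x) {f : PowerSeries ℤ} (hf : Sm x f) (Q : Polynomial ℤ) :
    Sm x (Polynomial.aeval f Q) ∧ ev x (Polynomial.aeval f Q) = Polynomial.aeval (ev x f) Q := by
  induction Q using Polynomial.induction_on' with
  | add P Q hP hQ =>
    rw [map_add, map_add]
    exact ⟨hP.1.add hx hQ.1, by rw [ev_add hx hP.1 hQ.1, hP.2, hQ.2]⟩
  | monomial n a =>
    have h1 : Polynomial.aeval f (Polynomial.monomial n a) = a • f ^ n := by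
      rw [Polynomial.aeval_monomial, zsmul_eq_mul]
      simp
    have h2 : Polynomial.aeval (ev x f) (Polynomial.monomial n a) = a * ev x f ^ n := by
      rw [Polynomial.aeval_monomial]
      simp
    rw [h1, h2]
    exact ⟨(hf.pow hx n).smul a, by rw [ev_smul, ev_pow hx hf]⟩

/-- the quotient by `1 - b X` -/
def quo (b : ℕ) (t : ℕ → ℤ) : ℕ → ℤ
  | 0 => t 0
  | m + 1 => b * quo b t m + t (m + 1)

theorem core {b p D : ℕ} (hb : 2 ≤ b) (hp : p.Prime) (hpb : ¬ p ∣ b) (e : ℕ → ℤ) {B : ℝ}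
    (hB : ∀ k, |(e k : ℝ)| ≤ B) {Q : Polynomial ℤ} (hD : Q.natDegree ≤ D)
    (hQ0 : ¬ (p : ℤ) ∣ Q.coeff 0) (hQ : ∀ j, 1 ≤ j → (p : ℤ) ∣ Q.coeff j)
    (hy : Polynomial.aeval (∑' k, (e k : ℝ) * (1 / b : ℝ) ^ k) Q = 0) :
    ∃ G : ℝ, 0 < G ∧ ∀ M : ℕ, (M : ℝ) ≤
      G * (1 + (((range (2 * M + 1)).filter fun k => e k ≠ 0).card : ℝ)) ^ D := by
  have hbR : (2 : ℝ) ≤ b := by exact_mod_cast hb
  have hB0 : 0 ≤ B := (abs_nonneg _).trans (hB 0)
  set E : PowerSeries ℤ := PowerSeries.mk e with hE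
  have hcE : ∀ k, coeff k E = e k := fun k => PowerSeries.coeff_mk k e
  have hSm : ∀ x : ℝ, 0 < x → x < 1 → Sm x E := by
    intro x hx0 hx1
    refine Summable.of_nonneg_of_le (fun k => by positivity) (fun k => ?_)
      ((summable_geometric_of_lt_one hx0.le hx1).mul_left B)
    rw [hcE]
    exact mul_le_mul_of_nonneg_right (hB k) (by positivity)
  set T : PowerSeries ℤ := Polynomial.aeval E Q with hT
  have hβ0 : (0 : ℝ) < 1 / b := by positivity
  have hβ1 : (1 / b : ℝ) < 1 := by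
    rw [div_lt_one (by linarith)]
    linarith
  have h1 := aeval_spec (x := 3 / 4) (by norm_num) (hSm _ (by norm_num) (by norm_num)) Q
  have h2 := aeval_spec (x := 1 / b) hβ0 (hSm _ hβ0 hβ1) Q
  have h3 : ev (1 / b : ℝ) E = ∑' k, (e k : ℝ) * (1 / b : ℝ) ^ k := by
    unfold ev
    exact tsum_congr fun k => by rw [hcE]
  rw [h3, hy] at h2
  have hTsum : T = ∑ i ∈ range (D + 1), Q.coeff i • E ^ i :=
    Polynomial.aeval_eq_sum_range' (Nat.lt_succ_of_le hD) E
  -- the coefficients modulo p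
  have hmod : ∀ k, (p : ℤ) ∣ coeff k T - if k = 0 then Q.coeff 0 else 0 := by
    intro k
    rw [hTsum, map_sum, sum_range_succ']
    have h4 : coeff k (Q.coeff 0 • E ^ 0) = if k = 0 then Q.coeff 0 else 0 := by
      rw [pow_zero, map_zsmul, PowerSeries.coeff_one, smul_eq_mul]
      split_ifs <;> simp
    rw [h4, add_sub_cancel_right]
    refine dvd_sum fun i _ => ?_
    rw [map_zsmul, smul_eq_mul]
    exact Dvd.dvd.mul_right (hQ (i + 1) (by omega)) _
  have hpZ : Prime (p : ℤ) := Nat.prime_iff_prime_int.1 hp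
  have hquo : ∀ m, (p : ℤ) ∣ quo b (fun k => coeff k T) m - (b : ℤ) ^ m * Q.coeff 0 := by
    intro m
    induction m with
    | zero => simpa [quo] using hmod 0
    | succ m ih =>
      have h4 := hmod (m + 1)
      rw [if_neg (by omega), sub_zero] at h4
      have h5 : quo b (fun k => coeff k T) (m + 1) - (b : ℤ) ^ (m + 1) * Q.coeff 0 =
          b * (quo b (fun k => coeff k T) m - (b : ℤ) ^ m * Q.coeff 0) + coeff (m + 1) T := by
        simp only [quo]
        ring
      rw [h5]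
      exact dvd_add (Dvd.dvd.mul_left ih _) h4
  have hne : ∀ m, quo b (fun k => coeff k T) m ≠ 0 := by
    intro m h0
    have h4 := hquo m
    rw [h0, zero_sub, dvd_neg] at h4
    rcases hpZ.dvd_or_dvd h4 with h5 | h5
    · exact hpb (by exact_mod_cast hpZ.dvd_of_dvd_pow h5)
    · exact hQ0 h5
  obtain ⟨C, hC⟩ := tail_bound hb (fun k => coeff k T) (quo b fun k => coeff k T) rfl
    (fun _ => rfl) h1.1 h2.2 hne
  -- the norm of T
  set G0 : ℝ := ∑ i ∈ range (D + 1), |(Q.coeff i : ℝ)| with hG0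
  have hG00 : 0 ≤ G0 := sum_nonneg fun _ _ => abs_nonneg _
  have hnT : ∀ K, nm K T ≤ G0 * (1 + nm K E) ^ D := by
    intro K
    rw [hTsum]
    refine (nm_sum _ _ _).trans ?_
    rw [hG0, sum_mul]
    refine sum_le_sum fun i hi => ?_
    rw [nm_smul]
    refine mul_le_mul_of_nonneg_left ?_ (abs_nonneg _)
    have h4 := nm_nonneg K E
    calc nm K (E ^ i) ≤ nm K E ^ i := nm_pow K E i
      _ ≤ (1 + nm K E) ^ i := pow_le_pow_left₀ h4 (by linarith) i
      _ ≤ (1 + nm K E) ^ D := pow_le_pow_right₀ (by linarith) (by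
          have := mem_range.1 hi
          omega)
  have hnE : ∀ K, nm K E ≤ B * (((range K).filter fun k => e k ≠ 0).card : ℝ) := by
    intro K
    unfold nm
    rw [← sum_filter_add_sum_filter_not (range K) (fun k => e k ≠ 0)]
    have h4 : ∑ k ∈ (range K).filter (fun k => ¬ e k ≠ 0), |((coeff k E : ℤ) : ℝ)| = 0 := by
      refine sum_eq_zero fun k hk => ?_
      rw [mem_filter, not_not] at hk
      rw [hcE, hk.2]
      simp
    rw [h4, add_zero]
    have h5 : ∑ k ∈ (range K).filter (fun k => e k ≠ 0), |((coeff k E : ℤ) : ℝ)| ≤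
        ∑ k ∈ (range K).filter (fun k => e k ≠ 0), B := by
      refine sum_le_sum fun k _ => ?_
      rw [hcE]
      exact hB k
    rw [sum_const, nsmul_eq_mul] at h5
    linarith
  refine ⟨G0 * (1 + B) ^ D + |C| + 1, by positivity, fun M => ?_⟩
  set lam : ℝ := (((range (2 * M + 1)).filter fun k => e k ≠ 0).card : ℝ) with hlam
  have hlam0 : 0 ≤ lam := Nat.cast_nonneg _
  have h4 := hC M
  have h5 : ∑ k ∈ range (2 * M + 1), |((coeff k T : ℤ) : ℝ)| ≤ G0 * (1 + B) ^ D * (1 + lam) ^ D := by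
    have h6 := hnT (2 * M + 1)
    have h7 := hnE (2 * M + 1)
    have h8 := nm_nonneg (2 * M + 1) E
    have h9 : (1 + nm (2 * M + 1) E) ^ D ≤ ((1 + B) * (1 + lam)) ^ D := by
      refine pow_le_pow_left₀ (by linarith) ?_ D
      have : 0 ≤ B * lam := by positivity
      nlinarith
    calc ∑ k ∈ range (2 * M + 1), |((coeff k T : ℤ) : ℝ)| = nm (2 * M + 1) T := rfl
      _ ≤ G0 * (1 + nm (2 * M + 1) E) ^ D := h6
      _ ≤ G0 * ((1 + B) * (1 + lam)) ^ D := mul_le_mul_of_nonneg_left h9 hG00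
      _ = G0 * (1 + B) ^ D * (1 + lam) ^ D := by rw [mul_pow]; ring
  have h6 : 1 ≤ (1 + lam) ^ D := one_le_pow₀ (by linarith)
  have h7 : C ≤ |C| := le_abs_self C
  have h8 : 0 ≤ |C| := abs_nonneg C
  nlinarith

end Pool.Agent.Helper80K9.DP
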