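import Mathlib

/-!
# An integer series vanishing at `1 / b` whose quotient by `1 - b X` has no zero coefficient
-/

set_option autoImplicit false

open Finset

namespace Pool.Agent.Helper80K9.DP

theorem tail_bound {b : ℕ} (hb : 2 ≤ b) (t r : ℕ → ℤ) (h0 : r 0 = t 0)
    (hr : ∀ m, r (m + 1) = b * r m + t (m + 1))
    (hs : Summable fun k => |(t k : ℝ)| * (3 / 4 : ℝ) ^ k)
    (hz : ∑' k, (t k : ℝ) * (1 / b : ℝ) ^ k = 0) (hne : ∀ m, r m ≠ 0) :
    ∃ C : ℝ, ∀ M : ℕ, (M : ℝ) ≤ ∑ k ∈ range (2 * M + 1), |(t k : ℝ)| + C := by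
  have hbR : (2 : ℝ) ≤ b := by exact_mod_cast hb
  have hb0 : (0 : ℝ) < b := by linarith
  set β : ℝ := 1 / b with hβ
  have hβ0 : 0 < β := by positivity
  have hbβ : (b : ℝ) * β = 1 := by rw [hβ]; field_simp
  have hβ1 : β ≤ 1 / 2 := one_div_le_one_div_of_le (by norm_num) hbR
  have hβ34 : β ≤ 3 / 4 := by linarith
  have hshift : ∀ x : ℝ, 0 < x → Summable (fun k => |(t k : ℝ)| * x ^ k) → ∀ m,
      Summable fun k => |(t (m + k) : ℝ)| * x ^ k := by
    intro x hx hsx m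
    have h1 := ((summable_nat_add_iff m).2 hsx).mul_left ((x ^ m)⁻¹)
    refine h1.congr fun k => ?_
    have : x ^ m ≠ 0 := (pow_pos hx m).ne'
    rw [pow_add, add_comm k m]
    field_simp
  have hsβ : Summable fun k => |(t k : ℝ)| * β ^ k :=
    Summable.of_nonneg_of_le (fun k => by positivity)
      (fun k => mul_le_mul_of_nonneg_left (pow_le_pow_left₀ hβ0.le hβ34 k) (abs_nonneg _)) hs
  have hsm := hshift β hβ0 hsβ
  have hsm' : ∀ m, Summable fun k => (t (m + k) : ℝ) * β ^ k := by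
    intro m
    refine Summable.of_norm ((hsm m).congr fun k => ?_)
    rw [Real.norm_eq_abs, abs_mul, abs_of_pos (pow_pos hβ0 k)]
  set U : ℕ → ℝ := fun m => ∑' k, |(t (m + k) : ℝ)| * β ^ k with hU
  set v : ℕ → ℝ := fun m => ∑' k, (t (m + k) : ℝ) * β ^ k with hv
  have hU1 : ∀ m, U m = |(t m : ℝ)| + β * U (m + 1) := by
    intro m
    simp only [hU]
    rw [(hsm m).tsum_eq_zero_add, ← tsum_mul_left]
    simp only [Nat.add_zero, pow_zero, mul_one]
    congr 1
    refine tsum_congr fun k => ?_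
    rw [show m + (k + 1) = m + 1 + k by omega, pow_succ]
    ring
  have hv1 : ∀ m, v m = (t m : ℝ) + β * v (m + 1) := by
    intro m
    simp only [hv]
    rw [(hsm' m).tsum_eq_zero_add, ← tsum_mul_left]
    simp only [Nat.add_zero, pow_zero, mul_one]
    congr 1
    refine tsum_congr fun k => ?_
    rw [show m + (k + 1) = m + 1 + k by omega, pow_succ]
    ring
  have hv0 : v 0 = 0 := by
    simp only [hv]
    rw [← hz]
    refine tsum_congr fun k => ?_
    rw [Nat.zero_add]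
  have hU0 : ∀ m, 0 ≤ U m := fun m => tsum_nonneg fun k => by positivity
  have hvU : ∀ m, |v m| ≤ U m := by
    intro m
    have h1 : Summable fun k => ‖(t (m + k) : ℝ) * β ^ k‖ := by
      refine (hsm m).congr fun k => ?_
      rw [Real.norm_eq_abs, abs_mul, abs_of_pos (pow_pos hβ0 k)]
    have h2 := norm_tsum_le_tsum_norm h1
    rw [Real.norm_eq_abs] at h2
    refine h2.trans (le_of_eq ?_)
    simp only [hU]
    refine tsum_congr fun k => ?_
    rw [Real.norm_eq_abs, abs_mul, abs_of_pos (pow_pos hβ0 k)]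
  have hrv : ∀ m, (r m : ℝ) = -(β * v (m + 1)) := by
    intro m
    induction m with
    | zero =>
      have h1 := hv1 0
      rw [hv0] at h1
      rw [h0]
      linarith
    | succ m ih =>
      have h1 := hv1 (m + 1)
      rw [hr]
      push_cast
      rw [ih]
      linear_combination (-1 : ℝ) * h1 - hbβ * v (m + 1)
  have hone : ∀ m, 1 ≤ β * U (m + 1) := by
    intro m
    have h1 : (1 : ℝ) ≤ |(r m : ℝ)| := by exact_mod_cast Int.one_le_abs (hne m)
    rw [hrv m, abs_neg, abs_mul, abs_of_pos hβ0] at h1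
    exact h1.trans (mul_le_mul_of_nonneg_left (hvU _) hβ0.le)
  -- first part
  have hA : ∀ M : ℕ, (M : ℝ) ≤ ∑ k ∈ range (M + 1), |(t k : ℝ)| + β * U (M + 1) := by
    have hA' : ∀ M : ℕ, ∑ m ∈ range M, β * U (m + 1) ≤
        ∑ k ∈ range (M + 1), |(t k : ℝ)| + β * U (M + 1) := by
      intro M
      induction M with
      | zero =>
        rw [sum_range_zero]
        have := hU0 1
        positivity
      | succ M ih =>
        rw [sum_range_succ, sum_range_succ _ (M + 1)]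
        have h1 := hU1 (M + 1)
        have h2 := hU0 (M + 1)
        have h3 : β * U (M + 1) ≤ 1 / 2 * U (M + 1) := mul_le_mul_of_nonneg_right hβ1 h2
        linarith
    intro M
    refine le_trans ?_ (hA' M)
    have : ∑ m ∈ range M, (1 : ℝ) ≤ ∑ m ∈ range M, β * U (m + 1) := sum_le_sum fun m _ => hone m
    simpa using this
  have hB : ∀ m n : ℕ, U m ≤ ∑ i ∈ range n, |(t (m + i) : ℝ)| + β ^ n * U (m + n) := by
    intro m n
    induction n with
    | zero => simp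
    | succ n ih =>
      rw [sum_range_succ]
      have h1 := hU1 (m + n)
      have h2 : β ^ n * |(t (m + n) : ℝ)| ≤ |(t (m + n) : ℝ)| := by
        have h3 : β ^ n ≤ 1 := pow_le_one₀ hβ0.le (by linarith)
        have := abs_nonneg (t (m + n) : ℝ)
        nlinarith
      rw [h1] at ih
      rw [← Nat.add_assoc, pow_succ]
      nlinarith
  set C : ℝ := ∑' k, |(t k : ℝ)| * (3 / 4 : ℝ) ^ k with hC
  have hC0 : 0 ≤ C := tsum_nonneg fun k => by positivity
  have hU2 : ∀ m, (3 / 4 : ℝ) ^ m * U m ≤ C := by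
    intro m
    have h1 : U m ≤ ∑' k, |(t (m + k) : ℝ)| * (3 / 4 : ℝ) ^ k := by
      refine Summable.tsum_le_tsum (fun k => ?_) (hsm m) (hshift _ (by norm_num) hs m)
      exact mul_le_mul_of_nonneg_left (pow_le_pow_left₀ hβ0.le hβ34 k) (abs_nonneg _)
    have h2 : (3 / 4 : ℝ) ^ m * ∑' k, |(t (m + k) : ℝ)| * (3 / 4 : ℝ) ^ k =
        ∑' k, |(t (k + m) : ℝ)| * (3 / 4 : ℝ) ^ (k + m) := by
      rw [← tsum_mul_left]
      refine tsum_congr fun k => ?_
      rw [pow_add, add_comm k m]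
      ring
    have h3 : ∑' k, |(t (k + m) : ℝ)| * (3 / 4 : ℝ) ^ (k + m) ≤ C := by
      rw [hC, ← hs.sum_add_tsum_nat_add m]
      have : 0 ≤ ∑ i ∈ range m, |(t i : ℝ)| * (3 / 4 : ℝ) ^ i := sum_nonneg fun k _ => by positivity
      linarith
    calc (3 / 4 : ℝ) ^ m * U m ≤ (3 / 4 : ℝ) ^ m * ∑' k, |(t (m + k) : ℝ)| * (3 / 4 : ℝ) ^ k :=
          mul_le_mul_of_nonneg_left h1 (by positivity)
      _ ≤ C := by rw [h2]; exact h3
  refine ⟨C, fun M => ?_⟩
  have h1 := hA M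
  have h2 := hB (M + 1) M
  have h3 := hU2 (M + 1 + M)
  have h4 : β * (β ^ M * U (M + 1 + M)) ≤ C := by
    have h5 : β ^ (M + 1) ≤ (1 / 2 : ℝ) ^ (M + 1) := pow_le_pow_left₀ hβ0.le hβ1 _
    have h6 : (1 / 2 : ℝ) ^ (M + 1) ≤ (3 / 4 : ℝ) ^ (M + 1 + M) := by
      have h7 : (1 / 2 : ℝ) ^ M ≤ (9 / 16 : ℝ) ^ M := pow_le_pow_left₀ (by norm_num) (by norm_num) _
      have h8 : (3 / 4 : ℝ) ^ (M + 1 + M) = (9 / 16 : ℝ) ^ M * (3 / 4) := by
        rw [show M + 1 + M = 2 * M + 1 by ring, pow_succ, pow_mul]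
        norm_num
      rw [h8, pow_succ]
      have : (0 : ℝ) ≤ (1 / 2 : ℝ) ^ M := by positivity
      nlinarith
    have h9 := hU0 (M + 1 + M)
    calc β * (β ^ M * U (M + 1 + M)) = β ^ (M + 1) * U (M + 1 + M) := by ring
      _ ≤ (3 / 4 : ℝ) ^ (M + 1 + M) * U (M + 1 + M) :=
          mul_le_mul_of_nonneg_right (h5.trans h6) h9
      _ ≤ C := h3
  have h5 : ∑ k ∈ range (2 * M + 1), |(t k : ℝ)| = ∑ k ∈ range (M + 1), |(t k : ℝ)| +
      ∑ i ∈ range M, |(t (M + 1 + i) : ℝ)| := by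
    rw [show 2 * M + 1 = M + 1 + M by ring, Finset.sum_range_add]
  rw [h5]
  have h6 : 0 ≤ ∑ i ∈ range M, |(t (M + 1 + i) : ℝ)| := sum_nonneg fun k _ => abs_nonneg _
  have h7 : β * U (M + 1) ≤ β * (∑ i ∈ range M, |(t (M + 1 + i) : ℝ)| +
      β ^ M * U (M + 1 + M)) := mul_le_mul_of_nonneg_left h2 hβ0.le
  have h8 : β * ∑ i ∈ range M, |(t (M + 1 + i) : ℝ)| ≤
      1 * ∑ i ∈ range M, |(t (M + 1 + i) : ℝ)| := mul_le_mul_of_nonneg_right (by linarith) h6
  rw [mul_add] at h7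
  linarith

end Pool.Agent.Helper80K9.DP
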